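import Pool.Agent.H224R2.Mah.Defs
import Pool.Agent.H629R2.Mah.L2_divfree
import Pool.Agent.H100R2.Mah.L3_int_zero

/-!
# L4: integration by parts with the vector field `χ(G) adj(M) ∇G`
-/

namespace Pool.Agent.H224R2.Mah

open MeasureTheory Set Filter Topology
open scoped ENNReal RealInnerProductSpace

namespace L4

variable {n : ℕ} {ι : Type} [Fintype ι]

/-- directional derivative of a planar function -/
noncomputable def Dw (w : ℂ) (f : ℂ → ℝ) (u : ℂ) : ℝ := fderiv ℝ f u w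

/-- `∑ (∂_w S_j)(u_j) a_j` -/
noncomputable def Vw (w : ℂ) (S : ι → ℂ → ℝ) (a : ι → Fin n → ℝ) (z : Fin n → ℂ) : Fin n → ℝ :=
  ∑ j, Dw w (S j) (uu (a j) z) • a j

theorem cd_Dw (w : ℂ) {f : ℂ → ℝ} {u : ℂ} {m k : WithTop ℕ∞} (hf : ContDiffAt ℝ k f u)
    (hmk : m + 1 ≤ k) : ContDiffAt ℝ m (Dw w f) u := by
  have : Dw w f = fun v => fderiv ℝ f v w := rfl
  rw [this]
  exact (hf.fderiv_right hmk).clm_apply contDiffAt_const

theorem uu_contDiff (a : Fin n → ℝ) : ContDiff ℝ 3 (uu a) := by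
  have : uu a = fun z : Fin n → ℂ => ∑ k, (a k : ℂ) * z k := rfl
  rw [this]
  fun_prop

theorem uu_line (a : Fin n → ℝ) (z : Fin n → ℂ) (t : ℝ) (k : Fin n) (w : ℂ) :
    uu a (z + t • (Pi.single k w : Fin n → ℂ)) = uu a z + ((t * a k : ℝ) : ℂ) * w := by
  unfold uu
  simp only [Pi.add_apply, Pi.smul_apply, mul_add, Finset.sum_add_distrib]
  congr 1
  rw [Finset.sum_eq_single k]
  · simp only [Pi.single_eq_same, Complex.real_smul]
    push_cast
    ring
  · intro b _ hb
    simp [Pi.single_eq_of_ne hb]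
  · intro h
    exact absurd (Finset.mem_univ _) h

theorem hd_line (a : Fin n → ℝ) (z : Fin n → ℂ) (k : Fin n) (w : ℂ) {f : ℂ → ℝ}
    (hf : DifferentiableAt ℝ f (uu a z)) :
    HasDerivAt (fun t : ℝ => f (uu a (z + t • (Pi.single k w : Fin n → ℂ))))
      (Dw w f (uu a z) * a k) 0 := by
  have h1 : HasDerivAt (fun t : ℝ => uu a z + ((t * a k : ℝ) : ℂ) * w) (((a k : ℝ) : ℂ) * w) 0 := by
    have h2 : HasDerivAt (fun t : ℝ => t * a k) (a k) 0 := by
      simpa using (hasDerivAt_id (0 : ℝ)).mul_const (a k)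
    have h3 := (h2.ofReal_comp.mul_const w).const_add (uu a z)
    exact h3
  have h2 : HasFDerivAt f (fderiv ℝ f (uu a z)) (uu a z + (((0 : ℝ) * a k : ℝ) : ℂ) * w) := by
    simpa using hf.hasFDerivAt
  have h4 := h2.comp_hasDerivAt (0 : ℝ) h1
  have h5 : fderiv ℝ f (uu a z) (((a k : ℝ) : ℂ) * w) = Dw w f (uu a z) * a k := by
    have : ((a k : ℝ) : ℂ) * w = (a k) • w := by rw [Complex.real_smul]
    rw [this, map_smul, smul_eq_mul, mul_comm]
    rfl
  rw [h5] at h4
  have h6 : (fun t : ℝ => f (uu a (z + t • (Pi.single k w : Fin n → ℂ)))) =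
      f ∘ (fun t : ℝ => uu a z + ((t * a k : ℝ) : ℂ) * w) := by
    funext t
    simp only [Function.comp]
    rw [uu_line]
  rw [h6]
  exact h4

theorem Vw_apply (w : ℂ) (S : ι → ℂ → ℝ) (a : ι → Fin n → ℝ) (z : Fin n → ℂ) (l : Fin n) :
    Vw w S a z l = ∑ j, Dw w (S j) (uu (a j) z) * a j l := by
  unfold Vw
  simp [Finset.sum_apply]

theorem mat_apply (c : ι → ℝ) (a : ι → Fin n → ℝ) (k l : Fin n) :
    mat c a k l = ∑ j, c j * (a j k * a j l) := by
  unfold mat
  simp [Matrix.sum_apply, Matrix.vecMulVec_apply]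

theorem mat_contDiff (a : ι → Fin n → ℝ) (k l : Fin n) :
    ContDiff ℝ 1 (fun c : ι → ℝ => mat c a k l) := by
  simp only [mat_apply]
  fun_prop

theorem det_contDiff {E : Type} [NormedAddCommGroup E] [NormedSpace ℝ E] {p : ℕ}
    (M : E → Matrix (Fin p) (Fin p) ℝ) (hM : ∀ i j, ContDiff ℝ 1 (fun e => M e i j)) :
    ContDiff ℝ 1 (fun e => (M e).det) := by
  simp only [Matrix.det_apply]
  refine ContDiff.sum fun σ _ => ?_
  refine ContDiff.const_smul _ ?_
  exact contDiff_prod fun i _ => hM _ _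

theorem adj_contDiff (a : ι → Fin n → ℝ) (k l : Fin n) :
    ContDiff ℝ 1 (fun c : ι → ℝ => (mat c a).adjugate k l) := by
  simp only [Matrix.adjugate_apply]
  refine det_contDiff _ fun i j => ?_
  by_cases hi : i = l
  · subst hi
    simp only [Matrix.updateRow_self]
    exact contDiff_const
  · simp only [Matrix.updateRow_ne hi]
    exact mat_contDiff a i j

theorem matdet_contDiff (a : ι → Fin n → ℝ) :
    ContDiff ℝ 1 (fun c : ι → ℝ => (mat c a).det) :=
  det_contDiff _ fun i j => mat_contDiff a i j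

/-- derivative of an entry of the adjugate along a curve of coefficients -/
theorem adj_curve (a : ι → Fin n → ℝ) (k l : Fin n) (γ : ℝ → ι → ℝ) (d : ι → ℝ)
    (hγ : ∀ j, HasDerivAt (fun t => γ t j) (d j) 0) :
    HasDerivAt (fun t => (mat (γ t) a).adjugate k l)
      (deriv (fun t : ℝ => (mat (fun j => γ 0 j + t * d j) a).adjugate k l) 0) 0 := by
  have hΦ : HasFDerivAt (fun c : ι → ℝ => (mat c a).adjugate k l)
      (fderiv ℝ (fun c : ι → ℝ => (mat c a).adjugate k l) (γ 0)) (γ 0) :=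
    ((adj_contDiff a k l).differentiable one_ne_zero _).hasFDerivAt
  have h1 : HasDerivAt γ d 0 := hasDerivAt_pi.mpr hγ
  have h2 : HasDerivAt (fun t : ℝ => fun j => γ 0 j + t * d j) d 0 := by
    rw [hasDerivAt_pi]
    intro j
    simpa using ((hasDerivAt_id (0 : ℝ)).mul_const (d j)).const_add (γ 0 j)
  have h3 := hΦ.comp_hasDerivAt (0 : ℝ) h1
  have h4 : HasDerivAt (fun t : ℝ => (mat (fun j => γ 0 j + t * d j) a).adjugate k l)
      ((fderiv ℝ (fun c : ι → ℝ => (mat c a).adjugate k l) (γ 0)) d) 0 := by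
    have hΦ' : HasFDerivAt (fun c : ι → ℝ => (mat c a).adjugate k l)
      (fderiv ℝ (fun c : ι → ℝ => (mat c a).adjugate k l) (γ 0)) (fun j => γ 0 j + 0 * d j) := by
      simpa using hΦ
    exact hΦ'.comp_hasDerivAt (0 : ℝ) h2
  rw [h4.deriv]
  exact h3

/-- one component of the vector field -/
noncomputable def fld (w : ℂ) (χ : ℝ → ℝ) (S : ι → ℂ → ℝ) (a : ι → Fin n → ℝ) (k : Fin n)
    (z : Fin n → ℂ) : ℝ :=
  χ (GG S a z) * ∑ l, (MM (fun j => lap (S j)) a z).adjugate k l * Vw w S a z l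

variable {P : Set ℂ} {S : ι → ℂ → ℝ} {a : ι → Fin n → ℝ}

theorem Om_open (hP : IsOpen P) (a : ι → Fin n → ℝ) : IsOpen (Om P a) := by
  have : Om P a = ⋂ j, uu (a j) ⁻¹' P := by
    ext z; simp [Om]
  rw [this]
  exact isOpen_iInter_of_finite fun j => hP.preimage (uu_contDiff (a j)).continuous

theorem lap_cd (hP : IsOpen P) {f : ℂ → ℝ} (hS : PSH P f) {u : ℂ} (hu : u ∈ P) :
    ContDiffAt ℝ 1 (lap f) u := by
  have h3 : ContDiffAt ℝ 3 f u := hS.smooth.contDiffAt (hP.mem_nhds hu)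
  have h2x : ContDiffAt ℝ 2 (Dw 1 f) u := cd_Dw 1 h3 (by norm_num)
  have h2y : ContDiffAt ℝ 2 (Dw Complex.I f) u := cd_Dw _ h3 (by norm_num)
  have h1x : ContDiffAt ℝ 1 (Dw 1 (Dw 1 f)) u := cd_Dw 1 h2x (by norm_num)
  have h1y : ContDiffAt ℝ 1 (Dw Complex.I (Dw Complex.I f)) u := cd_Dw _ h2y (by norm_num)
  have : lap f = fun v => Dw 1 (Dw 1 f) v + Dw Complex.I (Dw Complex.I f) v := rfl
  rw [this]
  exact h1x.add h1y

theorem S_cd (hP : IsOpen P) {f : ℂ → ℝ} (hS : PSH P f) {u : ℂ} (hu : u ∈ P) :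
    ContDiffAt ℝ 3 f u := hS.smooth.contDiffAt (hP.mem_nhds hu)

theorem comp_uu_cd {f : ℂ → ℝ} (b : Fin n → ℝ) (z : Fin n → ℂ) (h : ContDiffAt ℝ 1 f (uu b z)) :
    ContDiffAt ℝ 1 (fun y => f (uu b y)) z :=
  h.comp z ((uu_contDiff b).of_le (by norm_num)).contDiffAt

theorem GG_cd (hP : IsOpen P) (hS : ∀ j, PSH P (S j)) {z : Fin n → ℂ} (hz : z ∈ Om P a) :
    ContDiffAt ℝ 1 (GG S a) z := by
  have : GG S a = fun z => ∑ j, S j (uu (a j) z) := rfl
  rw [this]
  exact ContDiffAt.sum fun j _ => comp_uu_cd _ _ ((S_cd hP (hS j) (hz j)).of_le (by norm_num))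

theorem coef_cd (hP : IsOpen P) (hS : ∀ j, PSH P (S j)) {z : Fin n → ℂ} (hz : z ∈ Om P a) :
    ContDiffAt ℝ 1 (fun y : Fin n → ℂ => fun j => lap (S j) (uu (a j) y)) z :=
  contDiffAt_pi.mpr fun j => comp_uu_cd _ _ (lap_cd hP (hS j) (hz j))

theorem det_cd (hP : IsOpen P) (hS : ∀ j, PSH P (S j)) {z : Fin n → ℂ} (hz : z ∈ Om P a) :
    ContDiffAt ℝ 1 (fun y => (MM (fun j => lap (S j)) a y).det) z :=
  (matdet_contDiff a).contDiffAt.comp z (coef_cd hP hS hz)

theorem adj_cd (hP : IsOpen P) (hS : ∀ j, PSH P (S j)) {z : Fin n → ℂ} (hz : z ∈ Om P a)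
    (k l : Fin n) :
    ContDiffAt ℝ 1 (fun y => (MM (fun j => lap (S j)) a y).adjugate k l) z :=
  (adj_contDiff a k l).contDiffAt.comp z (coef_cd hP hS hz)

theorem Vw_cd (hP : IsOpen P) (hS : ∀ j, PSH P (S j)) {z : Fin n → ℂ} (hz : z ∈ Om P a)
    (w : ℂ) (l : Fin n) : ContDiffAt ℝ 1 (fun y => Vw w S a y l) z := by
  simp only [Vw_apply]
  refine ContDiffAt.sum fun j _ => ContDiffAt.mul ?_ contDiffAt_const
  exact comp_uu_cd _ _ (cd_Dw w (S_cd hP (hS j) (hz j)) (by norm_num))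

theorem fld_cd (hP : IsOpen P) (hS : ∀ j, PSH P (S j)) {z : Fin n → ℂ} (hz : z ∈ Om P a)
    (w : ℂ) {χ : ℝ → ℝ} (hχ : ContDiff ℝ 1 χ) (k : Fin n) :
    ContDiffAt ℝ 1 (fld w χ S a k) z := by
  have : fld w χ S a k = fun z => χ (GG S a z) *
    ∑ l, (MM (fun j => lap (S j)) a z).adjugate k l * Vw w S a z l := rfl
  rw [this]
  refine ContDiffAt.mul (hχ.contDiffAt.comp z (GG_cd hP hS hz)) ?_
  exact ContDiffAt.sum fun l _ => (adj_cd hP hS hz k l).mul (Vw_cd hP hS hz w l)

/-- the derivative of one component of the field in its own direction -/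
theorem fld_hasDeriv (hP : IsOpen P) (hS : ∀ j, PSH P (S j)) {z : Fin n → ℂ} (hz : z ∈ Om P a)
    (w : ℂ) {χ χ' : ℝ → ℝ} (hχ : ∀ g, HasDerivAt χ (χ' g) g) (k : Fin n) :
    HasDerivAt (fun t : ℝ => fld w χ S a k (z + t • (Pi.single k w : Fin n → ℂ)))
      (χ' (GG S a z) * Vw w S a z k *
          ∑ l, (MM (fun j => lap (S j)) a z).adjugate k l * Vw w S a z l +
        χ (GG S a z) * ∑ l, (deriv (fun t : ℝ => (mat (fun j => lap (S j) (uu (a j) z) +
          t * (Dw w (lap (S j)) (uu (a j) z) * a j k)) a).adjugate k l) 0 * Vw w S a z l +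
          (MM (fun j => lap (S j)) a z).adjugate k l *
            ∑ j, Dw w (Dw w (S j)) (uu (a j) z) * a j k * a j l)) 0 := by
  have hG : HasDerivAt (fun t : ℝ => GG S a (z + t • (Pi.single k w : Fin n → ℂ)))
      (Vw w S a z k) 0 := by
    rw [Vw_apply]
    have : (fun t : ℝ => GG S a (z + t • (Pi.single k w : Fin n → ℂ))) =
      fun t : ℝ => ∑ j, S j (uu (a j) (z + t • (Pi.single k w : Fin n → ℂ))) := rfl
    rw [this]
    exact HasDerivAt.fun_sum fun j _ => hd_line (a j) z k w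
      ((S_cd hP (hS j) (hz j)).differentiableAt (by norm_num))
  have h00 : z + (0 : ℝ) • (Pi.single k w : Fin n → ℂ) = z := by simp
  have hχG : HasDerivAt (fun t : ℝ => χ (GG S a (z + t • (Pi.single k w : Fin n → ℂ))))
      (χ' (GG S a z) * Vw w S a z k) 0 := by
    have h1 : HasDerivAt χ (χ' (GG S a z)) (GG S a (z + (0 : ℝ) • (Pi.single k w : Fin n → ℂ))) := by
      rw [h00]; exact hχ _
    exact h1.comp (0 : ℝ) hG
  have hadj : ∀ l, HasDerivAt (fun t : ℝ => (MM (fun j => lap (S j)) a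
      (z + t • (Pi.single k w : Fin n → ℂ))).adjugate k l)
      (deriv (fun t : ℝ => (mat (fun j => lap (S j) (uu (a j) z) +
          t * (Dw w (lap (S j)) (uu (a j) z) * a j k)) a).adjugate k l) 0) 0 := by
    intro l
    have h1 := adj_curve a k l
      (fun t j => lap (S j) (uu (a j) (z + t • (Pi.single k w : Fin n → ℂ))))
      (fun j => Dw w (lap (S j)) (uu (a j) z) * a j k)
      (fun j => hd_line (a j) z k w ((lap_cd hP (hS j) (hz j)).differentiableAt (by norm_num)))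
    simp only [h00] at h1
    exact h1
  have hV : ∀ l, HasDerivAt (fun t : ℝ => Vw w S a (z + t • (Pi.single k w : Fin n → ℂ)) l)
      (∑ j, Dw w (Dw w (S j)) (uu (a j) z) * a j k * a j l) 0 := by
    intro l
    simp only [Vw_apply]
    refine HasDerivAt.fun_sum fun j _ => HasDerivAt.mul_const ?_ _
    exact hd_line (a j) z k w
      ((cd_Dw (m := 1) w (S_cd hP (hS j) (hz j)) (by norm_num)).differentiableAt (by norm_num))
  have hprod := hχG.fun_mul (HasDerivAt.fun_sum (u := Finset.univ) fun l _ => (hadj l).fun_mul (hV l))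
  simp only [h00] at hprod
  exact hprod


theorem fderiv_fld (hP : IsOpen P) (hS : ∀ j, PSH P (S j)) {z : Fin n → ℂ} (hz : z ∈ Om P a)
    (w : ℂ) {χ χ' : ℝ → ℝ} (hχ : ∀ g, HasDerivAt χ (χ' g) g) (hχ' : Continuous χ') (k : Fin n) :
    fderiv ℝ (fld w χ S a k) z (Pi.single k w) =
      χ' (GG S a z) * Vw w S a z k *
          ∑ l, (MM (fun j => lap (S j)) a z).adjugate k l * Vw w S a z l +
        χ (GG S a z) * ∑ l, (deriv (fun t : ℝ => (mat (fun j => lap (S j) (uu (a j) z) +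
          t * (Dw w (lap (S j)) (uu (a j) z) * a j k)) a).adjugate k l) 0 * Vw w S a z l +
          (MM (fun j => lap (S j)) a z).adjugate k l *
            ∑ j, Dw w (Dw w (S j)) (uu (a j) z) * a j k * a j l) := by
  have hχc : ContDiff ℝ 1 χ := by
    rw [contDiff_one_iff_deriv]
    refine ⟨fun g => (hχ g).differentiableAt, ?_⟩
    have : deriv χ = χ' := funext fun g => (hχ g).deriv
    rw [this]; exact hχ'
  have h1 := fld_hasDeriv hP hS hz w hχ k
  have h2 : HasLineDerivAt ℝ (fld w χ S a k) _ z (Pi.single k w) := h1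
  have h3 : DifferentiableAt ℝ (fld w χ S a k) z :=
    (fld_cd hP hS hz w hχc k).differentiableAt (by norm_num)
  rw [← h3.lineDeriv_eq_fderiv]
  exact h2.lineDeriv

theorem div_w (hP : IsOpen P) (hS : ∀ j, PSH P (S j)) {z : Fin n → ℂ} (hz : z ∈ Om P a)
    (w : ℂ) {χ χ' : ℝ → ℝ} (hχ : ∀ g, HasDerivAt χ (χ' g) g) (hχ' : Continuous χ') :
    ∑ k, fderiv ℝ (fld w χ S a k) z (Pi.single k w) =
      χ' (GG S a z) * (Vw w S a z ⬝ᵥ
        (Matrix.mulVec (MM (fun j => lap (S j)) a z).adjugate (Vw w S a z))) +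
      χ (GG S a z) * ∑ k, ∑ l, (MM (fun j => lap (S j)) a z).adjugate k l *
            ∑ j, Dw w (Dw w (S j)) (uu (a j) z) * a j k * a j l := by
  have h0 : ∀ k ∈ Finset.univ, fderiv ℝ (fld w χ S a k) z (Pi.single k w) = _ :=
    fun k _ => fderiv_fld hP hS hz w hχ hχ' k
  rw [Finset.sum_congr rfl h0]
  simp only [Finset.sum_add_distrib, mul_add]
  have h1 : ∑ k, χ' (GG S a z) * Vw w S a z k *
      ∑ l, (MM (fun j => lap (S j)) a z).adjugate k l * Vw w S a z l =
      χ' (GG S a z) * (Vw w S a z ⬝ᵥ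
        (Matrix.mulVec (MM (fun j => lap (S j)) a z).adjugate (Vw w S a z))) := by
    simp only [dotProduct, Matrix.mulVec, Finset.mul_sum]
    refine Finset.sum_congr rfl fun k _ => Finset.sum_congr rfl fun l _ => ?_
    ring
  have h2 : ∑ k, χ (GG S a z) * ∑ l, deriv (fun t : ℝ => (mat (fun j => lap (S j) (uu (a j) z) +
      t * (Dw w (lap (S j)) (uu (a j) z) * a j k)) a).adjugate k l) 0 * Vw w S a z l = 0 := by
    rw [← Finset.mul_sum, Finset.sum_comm]
    have : ∀ l, ∑ k, deriv (fun t : ℝ => (mat (fun j => lap (S j) (uu (a j) z) +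
      t * (Dw w (lap (S j)) (uu (a j) z) * a j k)) a).adjugate k l) 0 * Vw w S a z l = 0 := by
      intro l
      rw [← Finset.sum_mul, L2_divfree a (fun j => lap (S j) (uu (a j) z))
        (fun j => Dw w (lap (S j)) (uu (a j) z)) l, zero_mul]
    simp only [this, Finset.sum_const_zero, mul_zero]
  rw [h1, h2, zero_add, ← Finset.mul_sum]

theorem adj_trace (c : ι → ℝ) (a : ι → Fin n → ℝ) :
    ∑ k, ∑ l, (mat c a).adjugate k l * ∑ j, c j * a j k * a j l = n * (mat c a).det := by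
  have h1 : ∀ k, ∑ l, (mat c a).adjugate k l * ∑ j, c j * a j k * a j l = (mat c a).det := by
    intro k
    have h2 : ((mat c a).adjugate * mat c a) k k = (mat c a).det := by
      rw [Matrix.adjugate_mul]
      simp
    rw [← h2, Matrix.mul_apply]
    refine Finset.sum_congr rfl fun l _ => ?_
    rw [mat_apply]
    congr 1
    refine Finset.sum_congr rfl fun j _ => ?_
    ring
  simp [h1]

theorem div_total (hP : IsOpen P) (hS : ∀ j, PSH P (S j)) {z : Fin n → ℂ} (hz : z ∈ Om P a)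
    {χ χ' : ℝ → ℝ} (hχ : ∀ g, HasDerivAt χ (χ' g) g) (hχ' : Continuous χ') :
    ∑ k, fderiv ℝ (fld 1 χ S a k) z (Pi.single k 1) +
      ∑ k, fderiv ℝ (fld Complex.I χ S a k) z (Pi.single k Complex.I) =
      n * (χ (GG S a z) * (MM (fun j => lap (S j)) a z).det) + χ' (GG S a z) * EE S a z := by
  rw [div_w hP hS hz 1 hχ hχ', div_w hP hS hz Complex.I hχ hχ']
  have hE : EE S a z = Vw 1 S a z ⬝ᵥ
        (Matrix.mulVec (MM (fun j => lap (S j)) a z).adjugate (Vw 1 S a z)) +
      Vw Complex.I S a z ⬝ᵥ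
        (Matrix.mulVec (MM (fun j => lap (S j)) a z).adjugate (Vw Complex.I S a z)) := rfl
  have hM : MM (fun j => lap (S j)) a z = mat (fun j => lap (S j) (uu (a j) z)) a := rfl
  have h1 := adj_trace (fun j => lap (S j) (uu (a j) z)) a
  rw [← hM] at h1
  have h2 : ∑ k, ∑ l, (MM (fun j => lap (S j)) a z).adjugate k l *
      ∑ j, lap (S j) (uu (a j) z) * a j k * a j l =
      ∑ k, ∑ l, (MM (fun j => lap (S j)) a z).adjugate k l *
            ∑ j, Dw 1 (Dw 1 (S j)) (uu (a j) z) * a j k * a j l +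
      ∑ k, ∑ l, (MM (fun j => lap (S j)) a z).adjugate k l *
            ∑ j, Dw Complex.I (Dw Complex.I (S j)) (uu (a j) z) * a j k * a j l := by
    rw [← Finset.sum_add_distrib]
    refine Finset.sum_congr rfl fun k _ => ?_
    rw [← Finset.sum_add_distrib]
    refine Finset.sum_congr rfl fun l _ => ?_
    rw [← mul_add, ← Finset.sum_add_distrib]
    congr 1
    refine Finset.sum_congr rfl fun j _ => ?_
    have : lap (S j) (uu (a j) z) = Dw 1 (Dw 1 (S j)) (uu (a j) z) +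
      Dw Complex.I (Dw Complex.I (S j)) (uu (a j) z) := rfl
    rw [this]
    ring
  rw [h2] at h1
  rw [hE]
  linear_combination χ (GG S a z) * h1

theorem uu_zero_of_span (hspan : Submodule.span ℝ (Set.range a) = ⊤) {z : Fin n → ℂ}
    (h : ∀ j, uu (a j) z = 0) : z = 0 := by
  have h1 : ∀ v : Fin n → ℝ, uu v z = 0 := by
    intro v
    have hv : v ∈ Submodule.span ℝ (Set.range a) := by rw [hspan]; exact Submodule.mem_top
    induction hv using Submodule.span_induction with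
    | mem x hx =>
      obtain ⟨j, rfl⟩ := hx
      exact h j
    | zero => simp [uu]
    | add x y _ _ hx hy =>
      unfold uu at *
      simp only [Pi.add_apply, Complex.ofReal_add, add_mul, Finset.sum_add_distrib, hx, hy,
        add_zero]
    | smul c x _ hx =>
      unfold uu at *
      simp only [Pi.smul_apply, smul_eq_mul, Complex.ofReal_mul, mul_assoc]
      rw [← Finset.mul_sum, hx, mul_zero]
  funext k
  have h2 := h1 (Pi.single k 1)
  unfold uu at h2
  rw [Finset.sum_eq_single k] at h2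
  · simpa using h2
  · intro b _ hb
    simp [Pi.single_eq_of_ne hb]
  · intro hk
    exact absurd (Finset.mem_univ _) hk

/-- the linear map `z ↦ (u_j(z))_j` -/
noncomputable def TT (a : ι → Fin n → ℝ) : (Fin n → ℂ) →ₗ[ℝ] (ι → ℂ) where
  toFun z := fun j => uu (a j) z
  map_add' x y := by
    funext j
    simp [uu, mul_add, Finset.sum_add_distrib]
  map_smul' c x := by
    funext j
    simp only [uu, Pi.smul_apply, RingHom.id_apply, Finset.smul_sum]
    refine Finset.sum_congr rfl fun k _ => ?_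
    simp only [Complex.real_smul]
    ring

theorem K_compact (hP : IsOpen P) (hspan : Submodule.span ℝ (Set.range a) = ⊤)
    (hS : ∀ j, PSH P (S j))
    (hcomp : ∀ j, ∀ t < 1, IsCompact {u | u ∈ P ∧ S j u ≤ t}) {τ : ℝ} (hτ : τ < 1) :
    IsCompact {z | z ∈ Om P a ∧ GG S a z ≤ τ} := by
  have hinj : LinearMap.ker (TT a) = ⊥ := by
    rw [LinearMap.ker_eq_bot']
    intro z hz
    exact uu_zero_of_span hspan fun j => congrFun hz j
  have hemb := LinearMap.isClosedEmbedding_of_injective hinj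
  set C : Set (ι → ℂ) := Set.pi Set.univ (fun j => {u | u ∈ P ∧ S j u ≤ τ}) with hC
  have hCc : IsCompact C := isCompact_univ_pi fun j => hcomp j τ hτ
  have hT : IsCompact (TT a ⁻¹' C) := hemb.isCompact_preimage hCc
  have hsub : TT a ⁻¹' C ⊆ Om P a := fun z hz j => (hz j (Set.mem_univ j)).1
  have hcont : ContinuousOn (GG S a) (TT a ⁻¹' C) := fun z hz =>
    (GG_cd hP hS (hsub hz)).continuousAt.continuousWithinAt
  have hcl := hcont.preimage_isClosed_of_isClosed hT.isClosed (isClosed_Iic (a := τ))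
  refine (hT.of_isClosed_subset hcl Set.inter_subset_left).of_isClosed_subset ?_ ?_ |> fun h => h
  · convert hcl using 1
    ext z
    constructor
    · rintro ⟨h1, h2⟩
      refine ⟨?_, h2⟩
      intro j _
      refine ⟨h1 j, ?_⟩
      refine le_trans ?_ h2
      exact Finset.single_le_sum (f := fun j => S j (uu (a j) z))
        (fun i _ => (hS i).nonneg _ (h1 i)) (Finset.mem_univ j)
    · rintro ⟨h1, h2⟩
      exact ⟨hsub h1, h2⟩
  · rintro z ⟨h1, h2⟩
    refine ⟨?_, h2⟩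
    intro j _
    refine ⟨h1 j, ?_⟩
    refine le_trans ?_ h2
    exact Finset.single_le_sum (f := fun j => S j (uu (a j) z))
      (fun i _ => (hS i).nonneg _ (h1 i)) (Finset.mem_univ j)

/-- extension by zero -/
noncomputable def ext (P : Set ℂ) (w : ℂ) (χ : ℝ → ℝ) (S : ι → ℂ → ℝ) (a : ι → Fin n → ℝ)
    (k : Fin n) : (Fin n → ℂ) → ℝ := (Om P a).indicator (fld w χ S a k)

theorem ext_eq_zero {w : ℂ} {χ : ℝ → ℝ} {τ : ℝ} (h0 : ∀ g, τ ≤ g → χ g = 0) (k : Fin n)
    {z : Fin n → ℂ} (hz : z ∉ {z | z ∈ Om P a ∧ GG S a z ≤ τ}) : ext P w χ S a k z = 0 := by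
  unfold ext
  by_cases h : z ∈ Om P a
  · rw [Set.indicator_of_mem h]
    have : τ ≤ GG S a z := by
      by_contra hcon
      push Not at hcon
      exact hz ⟨h, hcon.le⟩
    unfold fld
    rw [h0 _ this, zero_mul]
  · exact Set.indicator_of_notMem h _

theorem ext_contDiff (hP : IsOpen P) (hspan : Submodule.span ℝ (Set.range a) = ⊤)
    (hS : ∀ j, PSH P (S j))
    (hcomp : ∀ j, ∀ t < 1, IsCompact {u | u ∈ P ∧ S j u ≤ t}) {τ : ℝ} (hτ : τ < 1)
    (w : ℂ) {χ : ℝ → ℝ} (hχ : ContDiff ℝ 1 χ) (h0 : ∀ g, τ ≤ g → χ g = 0) (k : Fin n) :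
    ContDiff ℝ 1 (ext P w χ S a k) := by
  rw [contDiff_iff_contDiffAt]
  intro z
  by_cases hz : z ∈ Om P a
  · refine (fld_cd hP hS hz w hχ k).congr_of_eventuallyEq ?_
    filter_upwards [(Om_open hP a).mem_nhds hz] with y hy
    exact Set.indicator_of_mem hy _
  · have hzK : z ∉ {z | z ∈ Om P a ∧ GG S a z ≤ τ} := fun h => hz h.1
    refine (contDiffAt_const (c := (0 : ℝ))).congr_of_eventuallyEq ?_
    filter_upwards [(K_compact hP hspan hS hcomp hτ).isClosed.isOpen_compl.mem_nhds hzK] with y hy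
    exact ext_eq_zero h0 k hy

theorem ext_support (hP : IsOpen P) (hspan : Submodule.span ℝ (Set.range a) = ⊤)
    (hS : ∀ j, PSH P (S j))
    (hcomp : ∀ j, ∀ t < 1, IsCompact {u | u ∈ P ∧ S j u ≤ t}) {τ : ℝ} (hτ : τ < 1)
    (w : ℂ) {χ : ℝ → ℝ} (h0 : ∀ g, τ ≤ g → χ g = 0) (k : Fin n) :
    HasCompactSupport (ext P w χ S a k) :=
  HasCompactSupport.intro (K_compact hP hspan hS hcomp hτ) fun _ hz => ext_eq_zero h0 k hz

theorem fderiv_ext_mem (hP : IsOpen P) {w : ℂ} {χ : ℝ → ℝ} (k : Fin n) {z : Fin n → ℂ}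
    (hz : z ∈ Om P a) : fderiv ℝ (ext P w χ S a k) z = fderiv ℝ (fld w χ S a k) z := by
  refine Filter.EventuallyEq.fderiv_eq ?_
  filter_upwards [(Om_open hP a).mem_nhds hz] with y hy
  exact Set.indicator_of_mem hy _

theorem fderiv_ext_notMem (hP : IsOpen P) (hspan : Submodule.span ℝ (Set.range a) = ⊤)
    (hS : ∀ j, PSH P (S j))
    (hcomp : ∀ j, ∀ t < 1, IsCompact {u | u ∈ P ∧ S j u ≤ t}) {τ : ℝ} (hτ : τ < 1)
    {w : ℂ} {χ : ℝ → ℝ} (h0 : ∀ g, τ ≤ g → χ g = 0) (k : Fin n) {z : Fin n → ℂ}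
    (hz : z ∉ Om P a) : fderiv ℝ (ext P w χ S a k) z = 0 := by
  have hzK : z ∉ {z | z ∈ Om P a ∧ GG S a z ≤ τ} := fun h => hz h.1
  have h1 : ext P w χ S a k =ᶠ[𝓝 z] fun _ => (0 : ℝ) := by
    filter_upwards [(K_compact hP hspan hS hcomp hτ).isClosed.isOpen_compl.mem_nhds hzK] with y hy
    exact ext_eq_zero h0 k hy
  rw [h1.fderiv_eq]
  simp

end L4

/-- L4. Integration by parts: the vector field `χ(G) adj(M) ∇G`. -/
theorem L4_ibp {n : ℕ} {ι : Type} [Fintype ι]
    (P : Set ℂ) (hP : IsOpen P) (S : ι → ℂ → ℝ) (a : ι → Fin n → ℝ)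
    (hspan : Submodule.span ℝ (Set.range a) = ⊤) (hS : ∀ j, PSH P (S j))
    (hcomp : ∀ j, ∀ t < 1, IsCompact {u | u ∈ P ∧ S j u ≤ t})
    (χ χ' : ℝ → ℝ) (hχ : ∀ g, HasDerivAt χ (χ' g) g) (hχ' : Continuous χ') (τ : ℝ) (hτ : τ < 1)
    (h0 : ∀ g, τ ≤ g → χ g = 0) :
    n * ∫ z in Om P a, χ (GG S a z) * (MM (fun j => lap (S j)) a z).det =
      - ∫ z in Om P a, χ' (GG S a z) * EE S a z := by
  have hχc : ContDiff ℝ 1 χ := by
    rw [contDiff_one_iff_deriv]
    refine ⟨fun g => (hχ g).differentiableAt, ?_⟩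
    have : deriv χ = χ' := funext fun g => (hχ g).deriv
    rw [this]; exact hχ'
  have hcd : ∀ (w : ℂ) (k : Fin n), ContDiff ℝ 1 (L4.ext P w χ S a k) := fun w k =>
    L4.ext_contDiff hP hspan hS hcomp hτ w hχc h0 k
  have hsu : ∀ (w : ℂ) (k : Fin n), HasCompactSupport (L4.ext P w χ S a k) := fun w k =>
    L4.ext_support hP hspan hS hcomp hτ w h0 k
  have hint : ∀ (w : ℂ) (k : Fin n), Integrable (fun z => fderiv ℝ (L4.ext P w χ S a k) z
      (Pi.single k w)) := by
    intro w k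
    have h1 : Continuous (fun z => fderiv ℝ (L4.ext P w χ S a k) z (Pi.single k w)) :=
      ((hcd w k).continuous_fderiv one_ne_zero).clm_apply continuous_const
    refine h1.integrable_of_hasCompactSupport ?_
    exact (hsu w k).fderiv_apply (𝕜 := ℝ) _
  set D : (Fin n → ℂ) → ℝ := fun z =>
    ∑ k, fderiv ℝ (L4.ext P 1 χ S a k) z (Pi.single k 1) +
      ∑ k, fderiv ℝ (L4.ext P Complex.I χ S a k) z (Pi.single k Complex.I) with hD
  have hDint : Integrable D :=
    (integrable_finsetSum _ fun k _ => hint 1 k).add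
      (integrable_finsetSum _ fun k _ => hint Complex.I k)
  have hD0 : ∫ z, D z = 0 := by
    rw [hD, integral_add (integrable_finsetSum _ fun k _ => hint 1 k)
      (integrable_finsetSum _ fun k _ => hint Complex.I k),
      integral_finsetSum _ fun k _ => hint 1 k, integral_finsetSum _ fun k _ => hint Complex.I k]
    have h1 : ∀ (w : ℂ) (k : Fin n), ∫ z, fderiv ℝ (L4.ext P w χ S a k) z (Pi.single k w) = 0 :=
      fun w k => L3_int_zero volume _ (hcd w k) (hsu w k) _
    simp [h1]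
  have hDout : ∀ z, z ∉ Om P a → D z = 0 := by
    intro z hz
    simp only [hD, L4.fderiv_ext_notMem hP hspan hS hcomp hτ h0 _ hz]
    simp
  have hDin : ∀ z ∈ Om P a, D z = n * (χ (GG S a z) * (MM (fun j => lap (S j)) a z).det) +
      χ' (GG S a z) * EE S a z := by
    intro z hz
    rw [← L4.div_total hP hS hz hχ hχ']
    simp only [hD, L4.fderiv_ext_mem hP _ hz]
  have hms : MeasurableSet (Om P a) := (L4.Om_open hP a).measurableSet
  have h1 : ∫ z in Om P a, D z = 0 := by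
    rw [setIntegral_eq_integral_of_forall_compl_eq_zero hDout, hD0]
  have hi1 : IntegrableOn (fun z => χ (GG S a z) * (MM (fun j => lap (S j)) a z).det)
      (Om P a) := by
    have hK := L4.K_compact hP hspan hS hcomp hτ (a := a) (S := S)
    have hc : ContinuousOn (fun z => χ (GG S a z) * (MM (fun j => lap (S j)) a z).det)
        {z | z ∈ Om P a ∧ GG S a z ≤ τ} := by
      intro z hz
      exact ((hχc.contDiffAt.comp z (L4.GG_cd hP hS hz.1)).continuousAt.mul
        (L4.det_cd hP hS hz.1).continuousAt).continuousWithinAt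
    refine (hc.integrableOn_compact hK).of_forall_sdiff_eq_zero hms ?_
    rintro z ⟨hz1, hz2⟩
    have : τ ≤ GG S a z := by
      by_contra hcon
      push Not at hcon
      exact hz2 ⟨hz1, hcon.le⟩
    simp only [h0 _ this, zero_mul]
  have hi2 : IntegrableOn (fun z => χ' (GG S a z) * EE S a z) (Om P a) := by
    have h2 : IntegrableOn (fun z => D z - n * (χ (GG S a z) * (MM (fun j => lap (S j)) a z).det))
        (Om P a) := hDint.integrableOn.sub (hi1.const_mul _)
    refine h2.congr_fun ?_ hms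
    intro z hz
    simp only [hDin z hz]
    ring
  rw [setIntegral_congr_fun hms hDin, integral_add (hi1.const_mul _) hi2,
    integral_const_mul] at h1
  linarith

end Pool.Agent.H224R2.Mah
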